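import Pool.Agent.Helper12.XG.St

/-!
Project XG (MP_627c93_nt): growth of Chebyshev polynomials.
-/

set_option autoImplicit false

namespace Pool.Agent.Helper26.XG

open Finset Polynomial Pool.Agent.Helper12.XG Pool.Agent.Helper14.GS

theorem hCHG : StCHG := by
  intro n δ hδ hδ1
  set φ : ℝ := Real.arcosh (1 + δ) with hφ
  have hc : Real.cosh φ = 1 + δ := Real.cosh_arcosh (by linarith)
  have hφ0 : 0 ≤ φ := Real.arcosh_nonneg (by linarith)
  have hs0 : 0 ≤ Real.sqrt δ := Real.sqrt_nonneg _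
  have h1 : Real.cosh (Real.sqrt δ) ≤ 1 + δ := by
    have ha := Real.cosh_le_exp_half_sq (Real.sqrt δ)
    rw [Real.sq_sqrt hδ.le] at ha
    have hb : 1 - δ / 2 ≤ Real.exp (-(δ / 2)) := Real.one_sub_le_exp_neg _
    have hd : Real.exp (-(δ / 2)) * Real.exp (δ / 2) = 1 := by
      rw [← Real.exp_add]; simp
    have he : 0 < Real.exp (δ / 2) := Real.exp_pos _
    have hf : (1 - δ / 2) * Real.exp (δ / 2) ≤ 1 := by
      calc (1 - δ / 2) * Real.exp (δ / 2) ≤ Real.exp (-(δ / 2)) * Real.exp (δ / 2) :=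
            mul_le_mul_of_nonneg_right hb he.le
        _ = 1 := hd
    have hg : 1 ≤ (1 - δ / 2) * (1 + δ) := by nlinarith
    have hh : Real.exp (δ / 2) ≤ 1 + δ := by
      by_contra hcon
      push Not at hcon
      have hpos : 0 < 1 - δ / 2 := by linarith
      have := mul_lt_mul_of_pos_left hcon hpos
      linarith
    linarith
  have h2 : Real.sqrt δ ≤ φ := by
    have : Real.cosh (Real.sqrt δ) ≤ Real.cosh φ := by rw [hc]; exact h1
    rw [Real.cosh_le_cosh, abs_of_nonneg hs0, abs_of_nonneg hφ0] at this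
    exact this
  have h3 : (Chebyshev.T ℂ (n : ℤ)).eval ((1 + δ : ℝ) : ℂ) = ((Real.cosh (n * φ) : ℝ) : ℂ) := by
    have h := Polynomial.Chebyshev.T_complex_cosh (φ : ℂ) (n : ℤ)
    rw [← hc, Complex.ofReal_cosh, h, Complex.ofReal_cosh]
    push_cast
    rfl
  rw [h3, Complex.norm_real, Real.norm_eq_abs, abs_of_pos (Real.cosh_pos _), Real.cosh_eq]
  have h4 : Real.exp (n * Real.sqrt δ) ≤ Real.exp (n * φ) :=
    Real.exp_le_exp.mpr (mul_le_mul_of_nonneg_left h2 (Nat.cast_nonneg n))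
  have h5 := Real.exp_pos (-(n * φ))
  linarith

end Pool.Agent.Helper26.XG
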